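import Pool.Agent.Lib_helper52.EPS.Defs
import Pool.Agent.Lib_helper33.EPS.GI
import Pool.Agent.Lib_helper73.EPS.C0
set_option autoImplicit false

namespace Pool.Agent.EPS

open MeasureTheory Set Filter Topology

variable {d : ℕ}

lemma e2_integrand {a b : EuclideanSpace ℝ (Fin d) → ℝ} (ha : Integrable a) (hb : Integrable b) :
    Integrable (fun p : EuclideanSpace ℝ (Fin d) × EuclideanSpace ℝ (Fin d) =>
      a p.2 * b (p.1 - p.2)) (volume.prod volume) := by
  have h := Integrable.convolution_integrand (ContinuousLinearMap.mul ℝ ℝ) ha hb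
  simpa using h

lemma e2_exists {a b : EuclideanSpace ℝ (Fin d) → ℝ} (ha : Integrable a) (hb : Integrable b) :
    ∀ᵐ t : EuclideanSpace ℝ (Fin d), Integrable (fun x => a x * b (t - x)) :=
  (e2_integrand ha hb).prod_right_ae

lemma e2_cv_meas {a b : EuclideanSpace ℝ (Fin d) → ℝ} (ha : Measurable a) (hb : Measurable b) :
    Measurable (cv a b) := by
  have h : Measurable (fun p : EuclideanSpace ℝ (Fin d) × EuclideanSpace ℝ (Fin d) =>
      a p.2 * b (p.1 - p.2)) :=
    (ha.comp measurable_snd).mul (hb.comp (measurable_fst.sub measurable_snd))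
  exact (h.stronglyMeasurable.integral_prod_right' (ν := volume)).measurable

lemma e2_cv_nonneg {a b : EuclideanSpace ℝ (Fin d) → ℝ} (ha : ∀ x, 0 ≤ a x) (hb : ∀ x, 0 ≤ b x)
    (t : EuclideanSpace ℝ (Fin d)) : 0 ≤ cv a b t :=
  integral_nonneg fun x => mul_nonneg (ha x) (hb _)

lemma e2_cv_comm (a b : EuclideanSpace ℝ (Fin d) → ℝ) : cv a b = cv b a := by
  funext t
  unfold cv
  have h := integral_sub_left_eq_self (fun x => a x * b (t - x)) volume t
  rw [← h]
  refine integral_congr_ae (Eventually.of_forall fun x => ?_)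
  simp only [sub_sub_cancel]
  ring

/-- bound for `s' log s` when `0 ≤ s' ≤ s` -/
lemma e2_bound {x y : ℝ} (hx : 0 ≤ x) (hxy : x ≤ y) :
    |x * Real.log y| ≤ |Real.negMulLog y| := by
  have hy : 0 ≤ y := hx.trans hxy
  unfold Real.negMulLog
  rw [abs_mul, abs_mul, abs_neg, abs_of_nonneg hx, abs_of_nonneg hy]
  exact mul_le_mul_of_nonneg_right hxy (abs_nonneg _)

lemma e2_log_int {s s' : EuclideanSpace ℝ (Fin d) → ℝ} (hs : FinD s) (hm : Measurable s')
    (h0 : ∀ t, 0 ≤ s' t) (hle : ∀ᵐ t, s' t ≤ s t) :
    Integrable (fun t => s' t * Real.log (s t)) := by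
  refine hs.ent.mono ((hm.mul (Real.measurable_log.comp hs.meas)).aestronglyMeasurable) ?_
  filter_upwards [hle] with t ht
  rw [Real.norm_eq_abs, Real.norm_eq_abs]
  exact e2_bound (h0 t) ht

/-- Gibbs for a mixture of translates of `b` -/
lemma e2_conv {a b s : EuclideanSpace ℝ (Fin d) → ℝ} (hs : FinD s) (ham : Measurable a)
    (hbm : Measurable b) (ha0 : ∀ x, 0 ≤ a x) (hb0 : ∀ x, 0 ≤ b x) (hai : Integrable a)
    (hbi : Integrable b) (hbe : Integrable (fun x => Real.negMulLog (b x)))
    (hle : ∀ᵐ t, cv a b t ≤ s t) :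
    (∫ x, a x) * KK b ≤ - ∫ t, cv a b t * Real.log (s t) := by
  set K : EuclideanSpace ℝ (Fin d) × EuclideanSpace ℝ (Fin d) → ℝ :=
    fun p => a p.2 * b (p.1 - p.2) * Real.log (s p.1) with hKdef
  have hmF : Measurable (fun p : EuclideanSpace ℝ (Fin d) × EuclideanSpace ℝ (Fin d) =>
      a p.2 * b (p.1 - p.2)) :=
    (ham.comp measurable_snd).mul (hbm.comp (measurable_fst.sub measurable_snd))
  have hmK : Measurable K := hmF.mul (Real.measurable_log.comp (hs.meas.comp measurable_fst))
  have hex := e2_exists hai hbi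
  have hcl := e2_log_int hs (e2_cv_meas ham hbm) (e2_cv_nonneg ha0 hb0) hle
  have hK : Integrable K (volume.prod volume) := by
    rw [integrable_prod_iff hmK.aestronglyMeasurable]
    constructor
    · filter_upwards [hex] with t ht
      exact ht.mul_const (Real.log (s t))
    · refine hcl.norm.congr (Eventually.of_forall fun t => ?_)
      simp only [hKdef]
      have e : ∀ x, ‖a x * b (t - x) * Real.log (s t)‖ = a x * b (t - x) * |Real.log (s t)| := by
        intro x
        rw [norm_mul, Real.norm_eq_abs, Real.norm_eq_abs,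
          abs_of_nonneg (mul_nonneg (ha0 x) (hb0 _))]
      rw [norm_mul, Real.norm_eq_abs, Real.norm_eq_abs,
        abs_of_nonneg (e2_cv_nonneg ha0 hb0 t)]
      simp only [e]
      rw [integral_mul_const]
      rfl
  -- where `s` vanishes
  have hz : ∀ᵐ t : EuclideanSpace ℝ (Fin d), ∀ᵐ x : EuclideanSpace ℝ (Fin d),
      s t = 0 → a x * b (t - x) = 0 := by
    filter_upwards [hex, hle] with t ht1 ht2
    by_cases h0 : s t = 0
    · have h1 : cv a b t = 0 := le_antisymm (by rw [h0] at ht2; exact ht2)
        (e2_cv_nonneg ha0 hb0 t)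
      have h2 := (integral_eq_zero_iff_of_nonneg (fun x => mul_nonneg (ha0 x) (hb0 (t - x)))
        ht1).mp h1
      filter_upwards [h2] with x hx _
      exact hx
    · exact Eventually.of_forall fun x h => absurd h h0
  have hms : MeasurableSet {p : EuclideanSpace ℝ (Fin d) × EuclideanSpace ℝ (Fin d) |
      s p.1 = 0 → a p.2 * b (p.1 - p.2) = 0} := by
    have h1 : MeasurableSet {p : EuclideanSpace ℝ (Fin d) × EuclideanSpace ℝ (Fin d) |
        s p.1 = 0} := measurableSet_eq_fun (hs.meas.comp measurable_fst) measurable_const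
    have h2 : MeasurableSet {p : EuclideanSpace ℝ (Fin d) × EuclideanSpace ℝ (Fin d) |
        a p.2 * b (p.1 - p.2) = 0} := measurableSet_eq_fun hmF measurable_const
    exact MeasurableSet.imp h1 h2
  have hz2 := (Measure.ae_ae_comm (μ := (volume : Measure (EuclideanSpace ℝ (Fin d))))
    (ν := (volume : Measure (EuclideanSpace ℝ (Fin d))))
    (p := fun t x => s t = 0 → a x * b (t - x) = 0) hms).mp hz
  -- the main inequality for almost all `x`
  have hmain : ∀ᵐ x : EuclideanSpace ℝ (Fin d), a x * KK b ≤ - ∫ t, K (t, x) := by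
    filter_upwards [hK.prod_left_ae, hz2] with x hx1 hx2
    by_cases hax : a x = 0
    · simp [hKdef, hax]
    · have hpos : 0 < a x := lt_of_le_of_ne (ha0 x) (Ne.symm hax)
      have hi : Integrable (fun t => b (t - x) * Real.log (s t)) := by
        refine (hx1.const_mul (a x)⁻¹).congr (Eventually.of_forall fun t => ?_)
        simp only [hKdef]
        field_simp
      have hg := gibbs (μ := (volume : Measure (EuclideanSpace ℝ (Fin d))))
        (fun t => b (t - x)) s (fun t => hb0 _) hs.nn (hbi.comp_sub_right x) hs.int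
        hs.one.le (hbe.comp_sub_right x) hi (by
          filter_upwards [hx2] with t ht h0
          exact (mul_eq_zero.mp (ht h0)).resolve_left hax)
      have e1 := integral_sub_right_eq_self (μ := (volume : Measure (EuclideanSpace ℝ (Fin d))))
        (fun t => Real.negMulLog (b t)) x
      have e2 := integral_sub_right_eq_self (μ := (volume : Measure (EuclideanSpace ℝ (Fin d))))
        b x
      rw [e1, e2] at hg
      have e3 : ∫ t, K (t, x) = a x * ∫ t, b (t - x) * Real.log (s t) := by
        rw [← integral_const_mul]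
        refine integral_congr_ae (Eventually.of_forall fun t => ?_)
        simp only [hKdef]
        ring
      rw [e3]
      have h3 := mul_le_mul_of_nonneg_left hg hpos.le
      unfold KK
      linarith
  have hI1 : Integrable (fun x => a x * KK b) := hai.mul_const _
  have hI2 : Integrable (fun x => - ∫ t, K (t, x)) := hK.integral_prod_right.neg
  have h1 := integral_mono_ae hI1 hI2 hmain
  rw [integral_mul_const, integral_neg] at h1
  have h2 : ∫ x, ∫ t, K (t, x) = ∫ t, ∫ x, K (t, x) :=
    (integral_integral_swap (f := fun t x => K (t, x)) hK).symm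
  have h3 : ∫ t, ∫ x, K (t, x) = ∫ t, cv a b t * Real.log (s t) := by
    refine integral_congr_ae (Eventually.of_forall fun t => ?_)
    simp only [hKdef]
    rw [integral_mul_const]
    rfl
  rw [h2, h3] at h1
  exact h1

/-- the loss by truncation -/
theorem trunc_ineq {f g s u v : EuclideanSpace ℝ (Fin d) → ℝ} (hf : FinD f) (hg : FinD g)
    (hs : FinD s) (hcv : ∀ᵐ t, s t = cv f g t) (hu : Bdc u) (hv : Bdc v) (huf : ∀ x, u x ≤ f x)
    (hvg : ∀ x, v x ≤ g x) :
    KK (cv u v) + (1 - ∫ x, u x) * (∫ x, Real.negMulLog (g x)) + (1 - ∫ x, v x) * KK u ≤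
      ∫ t, Real.negMulLog (s t) := by
  have hui := bdc_int hu
  have hvi := bdc_int hv
  have hpm : Measurable (fun x => f x - u x) := hf.meas.sub hu.meas
  have hqm : Measurable (fun x => g x - v x) := hg.meas.sub hv.meas
  have hpi : Integrable (fun x => f x - u x) := hf.int.sub hui
  have hqi : Integrable (fun x => g x - v x) := hg.int.sub hvi
  have hp0 : ∀ x, 0 ≤ f x - u x := fun x => sub_nonneg.mpr (huf x)
  have hq0 : ∀ x, 0 ≤ g x - v x := fun x => sub_nonneg.mpr (hvg x)
  -- decomposition
  have hdec : ∀ᵐ t, s t = cv u v t + cv (fun x => f x - u x) g t +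
      cv u (fun x => g x - v x) t := by
    filter_upwards [hcv, e2_exists hui hvi, e2_exists hpi hg.int, e2_exists hui hqi] with
      t h1 h2 h3 h4
    have h23 : Integrable (fun x => u x * v (t - x) + (f x - u x) * g (t - x)) := h2.add h3
    rw [h1]
    unfold cv
    beta_reduce
    rw [← integral_add h2 h3, ← integral_add h23 h4]
    refine integral_congr_ae (Eventually.of_forall fun x => ?_)
    beta_reduce
    ring
  have n1 := e2_cv_nonneg hu.nn hv.nn
  have n2 := e2_cv_nonneg hp0 hg.nn
  have n3 := e2_cv_nonneg hu.nn hq0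
  have l1 : ∀ᵐ t, cv u v t ≤ s t := by
    filter_upwards [hdec] with t ht
    rw [ht]
    linarith [n2 t, n3 t]
  have l2 : ∀ᵐ t, cv (fun x => f x - u x) g t ≤ s t := by
    filter_upwards [hdec] with t ht
    rw [ht]
    linarith [n1 t, n3 t]
  have l3 : ∀ᵐ t, cv u (fun x => g x - v x) t ≤ s t := by
    filter_upwards [hdec] with t ht
    rw [ht]
    linarith [n1 t, n2 t]
  have i1 := e2_log_int hs (e2_cv_meas hu.meas hv.meas) n1 l1
  have i2 := e2_log_int hs (e2_cv_meas hpm hg.meas) n2 l2
  have i3 := e2_log_int hs (e2_cv_meas hu.meas hqm) n3 l3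
  -- first piece
  have g1 : KK (cv u v) ≤ - ∫ t, cv u v t * Real.log (s t) := by
    have hb := bdc_cv hu hv
    refine gibbs _ s hb.nn hs.nn (bdc_int hb) hs.int hs.one.le (bdc_ent hb) i1 ?_
    filter_upwards [l1] with t ht h0
    rw [h0] at ht
    exact le_antisymm ht (n1 t)
  -- second piece
  have g2 := e2_conv hs hpm hg.meas hp0 hg.nn hpi hg.int hg.ent l2
  -- third piece
  have g3 := e2_conv hs hqm hu.meas hq0 hu.nn hqi hui (bdc_ent hu)
    (by rw [e2_cv_comm]; exact l3)
  rw [e2_cv_comm (fun x => g x - v x) u] at g3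
  have k1 : KK g = ∫ x, Real.negMulLog (g x) := by
    unfold KK
    rw [hg.one, Real.negMulLog_one, sub_zero]
  have k2 : ∫ x, (f x - u x) = 1 - ∫ x, u x := by
    rw [integral_sub hf.int hui, hf.one]
  have k3 : ∫ x, (g x - v x) = 1 - ∫ x, v x := by
    rw [integral_sub hg.int hvi, hg.one]
  rw [k1, k2] at g2
  rw [k3] at g3
  have e : ∫ t, Real.negMulLog (s t) = - ((∫ t, cv u v t * Real.log (s t)) +
      (∫ t, cv (fun x => f x - u x) g t * Real.log (s t)) +
      ∫ t, cv u (fun x => g x - v x) t * Real.log (s t)) := by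
    have i12 : Integrable (fun t => cv u v t * Real.log (s t) +
        cv (fun x => f x - u x) g t * Real.log (s t)) := i1.add i2
    rw [← integral_add i1 i2, ← integral_add i12 i3, ← integral_neg]
    refine integral_congr_ae ?_
    filter_upwards [hdec] with t ht
    unfold Real.negMulLog
    have h2 : -(s t) * Real.log (s t) = -((cv u v t + cv (fun x => f x - u x) g t +
      cv u (fun x => g x - v x) t) * Real.log (s t)) := by
      rw [← ht]
      ring
    rw [h2]
    ring
  rw [e]
  linarith

end Pool.Agent.EPS
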